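import Pool.Agent.L7h66.SA.Main

/-!
# MP_5f80dd_lc, Q1: bi-embeddability of simple nuclear separable C*-algebras is complete analytic

`H` is an arbitrary separable infinite dimensional complex Hilbert space, `Γ(H) = B(H)^ℕ` is the
space of sequences of bounded operators with the product of the Borel structures of the weak
operator topology, and `γ ∈ Γ(H)` codes the C*-algebra `C*(γ)` generated by the entries of `γ`.

Idea of the proof. An analytic quasi-order `R` on `X` is coded by labelled trees `Λ x` on `List ℤ`: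
`R x y` holds if and only if there is a map `g` of the tree which preserves levels and parents and
satisfies `Λ x p ⊆ Λ y (g p)`.  Let `G x` be the group of rational vectors with finite support
indexed by the nodes which is generated by the unit vector of `p` divided by powers of a prime of
the level of `p` and of primes of the labels of `p`, and by the sum of the unit vectors of `k :: p`
and `p` divided by powers of a prime of the level, everything also divided by powers of `2`.  With
the strict order given by the sum of the coordinates `G x` is a simple dimension group with a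
unique state; a Bratteli diagram is obtained from bases of finitely generated subgroups on which
the state is positive, and gives a unital simple AF algebra.  A map `g` of trees gives a positive
homomorphism of groups, hence an embedding.  Conversely an embedding gives a nonzero homomorphism
of groups, and divisibility gives the map of trees.
-/

set_option autoImplicit false

open scoped InnerProductSpace

namespace Pool.Agent.Results.MP_5f80dd_lc.SimpleNuclearComplete

universe u v w

section defs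

variable {A : Type v} [CStarAlgebra A]

/-- The C*-algebra `C*(γ)` generated by the entries of a sequence `γ` in a C*-algebra `A` (below,
`A = B(H)`): the norm closure of the (not necessarily unital) *-algebra generated by them. -/
noncomputable def CStar (γ : ℕ → A) : Set A :=
  closure (NonUnitalStarAlgebra.adjoin ℂ (Set.range γ))

/-- `C*(γ)` embeds into `C*(δ)`: there is an injective *-homomorphism `φ : C*(γ) → C*(δ)` (the
values of `φ` outside of `C*(γ)` are irrelevant). -/
def Embeds (γ δ : ℕ → A) : Prop :=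
  ∃ φ : A → A, Set.MapsTo φ (CStar γ) (CStar δ) ∧ Set.InjOn φ (CStar γ) ∧
    ∀ a ∈ CStar γ, ∀ b ∈ CStar γ, ∀ c : ℂ,
      φ (a + b) = φ a + φ b ∧ φ (a * b) = φ a * φ b ∧
        φ (star a) = star (φ a) ∧ φ (c • a) = c • φ a

/-- `C*(γ)` and `C*(δ)` are bi-embeddable. -/
def BiEmbeddable (γ δ : ℕ → A) : Prop := Embeds γ δ ∧ Embeds δ γ

/-- `C*(γ)` is simple: it is not zero and its only closed two-sided ideals `J` are zero and
`C*(γ)`. -/
def IsSimple (γ : ℕ → A) : Prop :=
  (∃ a ∈ CStar γ, a ≠ 0) ∧ ∀ J : Set A, J ⊆ CStar γ → IsClosed J → (0 : A) ∈ J →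
    (∀ a ∈ J, ∀ b ∈ J, a + b ∈ J) → (∀ a ∈ J, ∀ b ∈ CStar γ, a * b ∈ J ∧ b * a ∈ J) →
    J = {0} ∨ J = CStar γ

/-- `C*(γ)` has a unit. -/
def IsUnital (γ : ℕ → A) : Prop := ∃ e ∈ CStar γ, ∀ a ∈ CStar γ, e * a = a ∧ a * e = a

/-- `C*(γ)` is an AF algebra: it is the closure of the union of an increasing sequence of finite
dimensional *-subalgebras. -/
def IsAF (γ : ℕ → A) : Prop :=
  ∃ N : ℕ → NonUnitalStarSubalgebra ℂ A, Monotone N ∧
    (∀ n, FiniteDimensional ℂ (N n).toSubmodule) ∧ CStar γ = closure (⋃ n, (N n : Set A))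

/-- The C*-algebra `M_n(ℂ)` of the operators on `ℂⁿ`. -/
abbrev Mat (n : ℕ) : Type := EuclideanSpace ℂ (Fin n) →L[ℂ] EuclideanSpace ℂ (Fin n)

/-- The element `a` of a C*-algebra is positive. -/
def Positive (a : A) : Prop := ∃ d : A, a = star d * d

/-- The linear map `φ` restricts to a contractive and completely positive map from the
C*-subalgebra `S` of `A` to the C*-subalgebra `T` of `B`.  Complete positivity means that
`∑ i j, (c i)* φ((a i)* (a j)) (c j)` is positive for all `a 0, …, a (k - 1) ∈ S` and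
`c 0, …, c (k - 1) ∈ T`. -/
structure CCP {B : Type w} [CStarAlgebra B] (S : Set A) (T : Set B) (φ : A →ₗ[ℂ] B) : Prop where
  mapsTo : ∀ a ∈ S, φ a ∈ T
  norm_le : ∀ a ∈ S, ‖φ a‖ ≤ ‖a‖
  cp : ∀ (k : ℕ) (a : Fin k → A) (c : Fin k → B), (∀ i, a i ∈ S) → (∀ i, c i ∈ T) →
    Positive (∑ i, ∑ j, star (c i) * φ (star (a i) * a j) * c j)

/-- `C*(γ)` is nuclear, that is, it has the completely positive approximation property: for all
finite `F ⊆ C*(γ)` and `ε > 0` there are contractive completely positive maps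
`φ : C*(γ) → M_n(ℂ)` and `ψ : M_n(ℂ) → C*(γ)` with `‖ψ (φ a) - a‖ < ε` for all `a ∈ F`. -/
def IsNuclear (γ : ℕ → A) : Prop :=
  ∀ F : Set A, F.Finite → F ⊆ CStar γ → ∀ ε : ℝ, 0 < ε →
    ∃ (n : ℕ) (φ : A →ₗ[ℂ] Mat n) (ψ : Mat n →ₗ[ℂ] A),
      CCP (CStar γ) Set.univ φ ∧ CCP Set.univ (CStar γ) ψ ∧ ∀ a ∈ F, ‖ψ (φ a) - a‖ < ε

end defs

section hilbert

variable {H : Type v} [NormedAddCommGroup H] [InnerProductSpace ℂ H] [CompleteSpace H]

/-- The Borel structure of the weak operator topology on `B(H)`. -/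
@[instance_reducible]
noncomputable def wotBorel : MeasurableSpace (H →L[ℂ] H) :=
  @borel (H →L[ℂ] H)
    (TopologicalSpace.induced (fun (T : H →L[ℂ] H) (q : H × H) => ⟪q.1, T q.2⟫_ℂ) inferInstance)

/-- A map into `Γ(H) = B(H)^ℕ` is Borel (for the product of the Borel structures of the weak
operator topology). -/
def BorelMap {X : Type u} [MeasurableSpace X] (f : X → ℕ → (H →L[ℂ] H)) : Prop :=
  @Measurable X (ℕ → (H →L[ℂ] H)) _ (@MeasurableSpace.pi ℕ _ fun _ => wotBorel) f

end hilbert

/-- A relation on a standard Borel space is analytic: it is the projection of a Borel subset of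
`X × X × ℕ^ℕ`. -/
def Analytic {X : Type u} [MeasurableSpace X] (R : X → X → Prop) : Prop :=
  ∃ B : Set ((X × X) × (ℕ → ℕ)), MeasurableSet B ∧ ∀ x y, R x y ↔ ∃ w, ((x, y), w) ∈ B

section bridge

variable {H : Type v} [NormedAddCommGroup H] [InnerProductSpace ℂ H] [CompleteSpace H]

theorem coe_CA (γ : ℕ → (H →L[ℂ] H)) : (L7h66.SA.CA γ : Set (H →L[ℂ] H)) = CStar γ := rfl

theorem embeds_iff (γ δ : ℕ → (H →L[ℂ] H)) :
    Embeds γ δ ↔ ∃ φ : L7h66.SA.CA γ →⋆ₙₐ[ℂ] L7h66.SA.CA δ, Function.Injective φ := by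
  classical
  constructor
  · rintro ⟨φ, h1, h2, h3⟩
    refine ⟨{ toFun := fun x => ⟨φ x, h1 x.2⟩, map_smul' := ?_, map_zero' := ?_,
              map_add' := ?_, map_mul' := ?_, map_star' := ?_ }, ?_⟩
    · intro c x
      exact Subtype.ext (h3 x x.2 x x.2 c).2.2.2
    · have h := (h3 (0 : L7h66.SA.CA γ) (0 : L7h66.SA.CA γ).2 (0 : L7h66.SA.CA γ)
        (0 : L7h66.SA.CA γ).2 0).1
      refine Subtype.ext ?_
      change φ 0 = 0
      simpa using h
    · intro x y
      exact Subtype.ext (h3 x x.2 y y.2 0).1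
    · intro x y
      exact Subtype.ext (h3 x x.2 y y.2 0).2.1
    · intro x
      exact Subtype.ext (h3 x x.2 x x.2 0).2.2.1
    · intro x y hxy
      exact Subtype.ext (h2 x.2 y.2 (congrArg Subtype.val hxy))
  · rintro ⟨φ, hφ⟩
    let ψ : (H →L[ℂ] H) → (H →L[ℂ] H) := fun a =>
      if h : a ∈ L7h66.SA.CA γ then (φ ⟨a, h⟩ : H →L[ℂ] H) else 0
    have hψ : ∀ (a : H →L[ℂ] H) (h : a ∈ L7h66.SA.CA γ), ψ a = φ ⟨a, h⟩ := fun a h => dif_pos h
    refine ⟨ψ, ?_, ?_, ?_⟩
    · intro a ha
      have ha' : a ∈ L7h66.SA.CA γ := ha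
      rw [hψ a ha']
      exact (φ ⟨a, ha'⟩).2
    · intro a ha b hb hab
      have ha' : a ∈ L7h66.SA.CA γ := ha
      have hb' : b ∈ L7h66.SA.CA γ := hb
      rw [hψ a ha', hψ b hb'] at hab
      exact congrArg Subtype.val (hφ (Subtype.ext hab))
    · intro a ha b hb c
      have ha' : a ∈ L7h66.SA.CA γ := ha
      have hb' : b ∈ L7h66.SA.CA γ := hb
      refine ⟨?_, ?_, ?_, ?_⟩
      · rw [hψ _ (add_mem ha' hb'), hψ a ha', hψ b hb']
        exact congrArg Subtype.val (map_add φ (⟨a, ha'⟩ : L7h66.SA.CA γ) ⟨b, hb'⟩)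
      · rw [hψ _ (mul_mem ha' hb'), hψ a ha', hψ b hb']
        exact congrArg Subtype.val (map_mul φ (⟨a, ha'⟩ : L7h66.SA.CA γ) ⟨b, hb'⟩)
      · rw [hψ _ (star_mem ha'), hψ a ha']
        exact congrArg Subtype.val (map_star φ (⟨a, ha'⟩ : L7h66.SA.CA γ))
      · rw [hψ _ (SMulMemClass.smul_mem c ha'), hψ a ha']
        exact congrArg Subtype.val (map_smul φ c (⟨a, ha'⟩ : L7h66.SA.CA γ))

end bridge

/-- **Bi-embeddability of simple nuclear separable C*-algebras is a complete analytic equivalence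
relation.**  Let `H` be a separable infinite dimensional Hilbert space and let `R` be an analytic
quasi-order on a standard Borel space `X`. There is a Borel map `f : X → Γ(H)` such that all the
C*-algebras `C*(f x)` are simple, nuclear, unital and AF, and `R x y` holds if and only if
`C*(f x)` embeds into `C*(f y)`. Consequently, if `R` is an analytic equivalence relation, then `f`
is a Borel reduction of `R` to bi-embeddability on the codes of simple nuclear separable
C*-algebras. -/
theorem result (H : Type v) [NormedAddCommGroup H] [InnerProductSpace ℂ H] [CompleteSpace H]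
    [TopologicalSpace.SeparableSpace H] (hH : ¬ FiniteDimensional ℂ H)
    (X : Type u) [MeasurableSpace X] [StandardBorelSpace X] (R : X → X → Prop)
    (hrefl : ∀ x, R x x) (htrans : ∀ x y z, R x y → R y z → R x z) (hR : Analytic R) :
    ∃ f : X → ℕ → (H →L[ℂ] H), BorelMap f ∧
      (∀ x, IsSimple (f x) ∧ IsNuclear (f x) ∧ IsUnital (f x) ∧ IsAF (f x)) ∧
      (∀ x y, R x y ↔ Embeds (f x) (f y)) ∧
      (Equivalence R → ∀ x y, R x y ↔ BiEmbeddable (f x) (f y)) := by
  obtain ⟨f, h1, h2, h3⟩ := L7h66.SA.main (H := H) hH R hrefl htrans hR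
  have h4 : ∀ x y, R x y ↔ Embeds (f x) (f y) := fun x y => (h3 x y).trans (embeds_iff _ _).symm
  refine ⟨f, ?_, fun x => ?_, h4, fun hE x y =>
    ⟨fun h => ⟨(h4 x y).1 h, (h4 y x).1 (hE.symm h)⟩, fun h => (h4 x y).2 h.1⟩⟩
  · exact @measurable_pi_lambda X ℕ (fun _ => H →L[ℂ] H) _ (fun _ => wotBorel) f h1
  · have hg := h2 x
    rw [coe_CA] at hg
    obtain ⟨⟨e, he1, he2, he3⟩, ⟨N, n1, n2, n3⟩, hs, hn⟩ := hg
    refine ⟨⟨⟨e, he1, he2⟩, hs⟩, ?_, ⟨e, he1, he3⟩, ⟨N, n1, n2, n3⟩⟩
    intro F hF hFA ε hε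
    obtain ⟨n, φ, ψ, p1, p2, p3, p4, p5, p6⟩ := hn F hF hFA ε hε
    refine ⟨n, φ, ψ, ⟨fun a _ => Set.mem_univ _, fun a _ => p1 a, fun k a c _ _ => ?_⟩,
      ⟨fun T _ => p3 T, fun T _ => p4 T, fun k a c _ _ => ?_⟩, p6⟩
    · exact CStarAlgebra.nonneg_iff_eq_star_mul_self.1
        ((ContinuousLinearMap.nonneg_iff_isPositive _).2 (p2 k a c))
    · exact CStarAlgebra.nonneg_iff_eq_star_mul_self.1
        ((ContinuousLinearMap.nonneg_iff_isPositive _).2 (p5 k a c))

end Pool.Agent.Results.MP_5f80dd_lc.SimpleNuclearComplete
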